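import Pool.Agent.Helper81.MH.Goals

/-! # Packet CATCH of the project MH (MP_340b06_lc) -/

set_option autoImplicit false

namespace Pool.Agent.Helper93.MH

open Set Cardinal Filter
open Pool.Agent.Helper81.SB Pool.Agent.Helper81.MH

theorem NN_le (x : W → Set ℕ) (e : W → ℕ → W) (c : W) (t : ℕ → Bool) (κ : ℕ) :
    NN x e c t κ ≤ κ - 1 := by
  classical
  unfold NN
  exact Nat.find_min' _ (Or.inl (by omega))

theorem itr_add (x : W → Set ℕ) (e : W → ℕ → W) (c : ℕ → W) (T : ℕ → ℕ → Bool) (k : ℕ) :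
    ∀ n, 1 ≤ itr x e c T k n → ∀ m ≤ n, itr x e c T k n + n ≤ itr x e c T k m + m := by
  intro n
  induction n with
  | zero =>
    intro _ m hm
    obtain rfl : m = 0 := by omega
    exact le_rfl
  | succ n ih =>
    intro h1 m hm
    have h2 : itr x e c T k (n + 1) ≤ itr x e c T k n - 1 := NN_le x e (c n) (T n) (itr x e c T k n)
    rcases Nat.lt_or_ge m (n + 1) with h | h
    · have h3 := ih (by omega) m (by omega)
      omega
    · obtain rfl : m = n + 1 := by omega
      exact le_rfl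

/-- elements of the `n`-th set come from elements of `b` -/
theorem pull (x : W → Set ℕ) (e : W → ℕ → W) (c : ℕ → W) (T : ℕ → ℕ → Bool) (θ : ℕ → Bool)
    (b : ℕ → Set ℕ) (hb : ∀ n, b (n + 1) = nextS x e (b n) (c n) (T n) (θ n)) :
    ∀ n, ∀ κ ∈ b n, ∃ k ∈ b 0, itr x e c T k n = κ ∧
      ∀ m < n, T m (itr x e c T k (m + 1)) = θ m := by
  intro n
  induction n with
  | zero =>
    intro κ hκ
    exact ⟨κ, hκ, rfl, fun m hm => absurd hm (Nat.not_lt_zero m)⟩
  | succ n ih =>
    intro κ hκ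
    rw [hb n] at hκ
    obtain ⟨h1, κ1, h2, h3⟩ := hκ
    obtain ⟨k, hk, hk1, hk2⟩ := ih κ1 h2
    have h4 : itr x e c T k (n + 1) = κ := by
      have : itr x e c T k (n + 1) = NN x e (c n) (T n) (itr x e c T k n) := rfl
      rw [this, hk1, h3]
    refine ⟨k, hk, h4, fun m hm => ?_⟩
    rcases Nat.lt_or_ge m n with h | h
    · exact hk2 m h
    · obtain rfl : m = n := by omega
      rw [h4]
      exact h1

theorem nst_eq (x : W → Set ℕ) (e : W → ℕ → W) (c : ℕ → W) (T : ℕ → ℕ → Bool) (θ : ℕ → Bool)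
    (k n : ℕ) (hkn : n < k) (h1 : ∀ m < n, T m (itr x e c T k (m + 1)) = θ m)
    (h2 : T n (itr x e c T k (n + 1)) ≠ θ n) : nst x e c T θ k = n := by
  classical
  unfold nst
  rw [Nat.find_eq_iff]
  refine ⟨Or.inr h2, fun m hm h => ?_⟩
  rcases h with h | h
  · omega
  · exact h (h1 m hm)

theorem goal_CATCH : Goal_CATCH := by
  classical
  intro x e t θ Γ h1 h2 𝒮 hm hg b hb
  -- the sets given by lists
  let BB : List W → Set ℕ := fun s => List.rec b (fun w _ z => nextS x e z w (t z w) (θ z w)) s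
  have hBnil : BB [] = b := rfl
  have hBcons : ∀ w s, BB (w :: s) = nextS x e (BB s) w (t (BB s) w) (θ (BB s) w) := fun _ _ => rfl
  have hBinf : ∀ s, (BB s).Infinite := by
    intro s
    induction s with
    | nil => exact hb
    | cons w s ih =>
      rw [hBcons]
      exact h1 _ ih w
  have hF : ∀ β : W, ∃ γ : W, ∀ s : List W, (∀ w ∈ s, w ≤ β) → Γ (BB s) < γ := by
    intro β
    have hc : (Iic β).Countable := by
      have : (Iic β : Set W) = insert β (Iio β) := by
        ext x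
        simp [le_iff_eq_or_lt]
      rw [this]
      exact (W_Iio β).insert β
    have : Countable (Iic β) := hc.to_subtype
    obtain ⟨γ, hγ⟩ := W_bdd _ (countable_range
      (fun l : List (Iic β) => Γ (BB (l.map Subtype.val))))
    refine ⟨γ, fun s hs => hγ _ ⟨s.attachWith (· ∈ Iic β) hs, ?_⟩⟩
    simp
  choose F hF using hF
  obtain ⟨p, hp, hpg⟩ := hg F
  refine ⟨p, hp, fun H => ?_⟩
  obtain ⟨c, f⟩ := p
  have hmono : Monotone c := hm _ hp
  simp only at hpg ⊢
  let L : ℕ → List W := fun n => Nat.rec [] (fun i l => c i :: l) n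
  have hL : ∀ n, L (n + 1) = c n :: L n := fun _ => rfl
  have hLle : ∀ n, ∀ w ∈ L (n + 1), w ≤ c n := by
    intro n
    induction n with
    | zero =>
      intro w hw
      rw [hL] at hw
      rcases List.mem_cons.1 hw with h | h
      · exact h.le
      · exact absurd h (by simp [L])
    | succ n ih =>
      intro w hw
      rw [hL] at hw
      rcases List.mem_cons.1 hw with h | h
      · exact h.le
      · exact (ih w h).trans (hmono (Nat.le_succ n))
  let bb : ℕ → Set ℕ := fun n => BB (L n)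
  let T : ℕ → ℕ → Bool := fun n => t (bb n) (c n)
  let θ' : ℕ → Bool := fun n => θ (bb n) (c n)
  have hbb : ∀ n, bb (n + 1) = nextS x e (bb n) (c n) (T n) (θ' n) := fun _ => rfl
  have hbb0 : bb 0 = b := rfl
  have hstop : ∀ i, F (c i) ≤ c (i + 1) →
      (stopS x e (bb (i + 1)) (c (i + 1)) (T (i + 1)) (θ' (i + 1))).Infinite := by
    intro i hi
    have h3 : Γ (BB (L (i + 1))) ≤ c (i + 1) := (hF (c i) (L (i + 1)) (hLle i)).le.trans hi
    exact h2 (BB (L (i + 1))) (hBinf (L (i + 1))) (c (i + 1)) h3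
  have step : ∀ s : Finset ℕ, ∃ k, k ∈ b ∧ (∀ y ∈ s, y < k ∧ H y ≤ k) ∧
      (∀ m ≤ s.card, s.card ≤ itr x e c T k (m + 1) ∧ T m (itr x e c T k (m + 1)) = θ' m) ∧
      f (nst x e c T θ' k - 1) = Encodable.encode s := by
    intro s
    obtain ⟨i, ⟨hi1, hi2⟩, hi3⟩ := (hpg (Encodable.encode s)).exists_gt
      (s.card + 1 + ∑ y ∈ s, (H y + y + 1))
    obtain ⟨κ, ⟨hκ1, hκ2⟩, hκ3⟩ := (hstop i hi2).exists_gt (s.card + 1)
    obtain ⟨k, hk1, hk2, hk3⟩ := pull x e c T θ' bb hbb (i + 1) κ hκ1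
    have hadd := itr_add x e c T k (i + 1) (by rw [hk2]; omega)
    rw [hk2] at hadd
    have h0 := hadd 0 (by omega)
    have hk0 : itr x e c T k 0 = k := rfl
    rw [hk0] at h0
    refine ⟨k, hk1, ?_, ?_, ?_⟩
    · intro y hy
      have h5 : H y + y + 1 ≤ ∑ y ∈ s, (H y + y + 1) :=
        Finset.single_le_sum (f := fun y => H y + y + 1) (fun _ _ => Nat.zero_le _) hy
      omega
    · intro m hm'
      refine ⟨?_, hk3 m (by omega)⟩
      have h5 := hadd (m + 1) (by omega)
      omega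
    · have h5 : nst x e c T θ' k = i + 1 := by
        refine nst_eq x e c T θ' k (i + 1) (by omega) hk3 ?_
        have h6 : itr x e c T k (i + 1 + 1) = NN x e (c (i + 1)) (T (i + 1)) (itr x e c T k (i + 1)) := rfl
        rw [h6, hk2]
        exact hκ2
      rw [h5, Nat.add_sub_cancel, hi1]
  choose K hK1 hK2 hK3 hK4 using step
  let S : ℕ → Finset ℕ := fun j => Nat.rec ∅ (fun _ s => insert (K s) s) j
  have hS : ∀ j, S (j + 1) = insert (K (S j)) (S j) := fun _ => rfl
  let g : ℕ → ℕ := fun j => K (S j)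
  have hSmem : ∀ j, S j = (Finset.range j).image g := by
    intro j
    induction j with
    | zero => rfl
    | succ j ih =>
      rw [hS, Finset.range_add_one, Finset.image_insert, ← ih]
  have hgm : ∀ i j, i < j → g i < g j ∧ H (g i) ≤ g j := by
    intro i j hij
    refine hK2 (S j) (g i) ?_
    rw [hSmem]
    exact Finset.mem_image_of_mem g (Finset.mem_range.2 hij)
  have hgmono : StrictMono g := fun i j hij => (hgm i j hij).1
  have hpre : ∀ j, pre (range g) (g j) = S j := by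
    intro j
    ext m
    rw [mem_pre, hSmem, Finset.mem_image]
    constructor
    · rintro ⟨h3, i, rfl⟩
      exact ⟨i, Finset.mem_range.2 (hgmono.lt_iff_lt.1 h3), rfl⟩
    · rintro ⟨i, hi, rfl⟩
      exact ⟨hgmono (Finset.mem_range.1 hi), i, rfl⟩
  refine ⟨range g, ⟨infinite_range_of_injective hgmono.injective, T, θ', ?_⟩, ?_, ?_⟩
  · rintro _ ⟨j, rfl⟩
    rw [hpre j]
    exact ⟨hK3 (S j), hK4 (S j)⟩
  · rintro _ ⟨j, rfl⟩
    exact hK1 (S j)
  · rintro _ ⟨i, rfl⟩ _ ⟨j, rfl⟩ hij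
    exact (hgm i j (hgmono.lt_iff_lt.1 hij)).2

end Pool.Agent.Helper93.MH
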